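import Pool.Agent.H913.LG.Final

/-! MP_c67f28_al, Q1 (negative answer): a submodule `V ⊂ U` of a Harish-Chandra module can have a
strictly larger Sobolev gap, `s(V, w) > s(U, w)`, with `Norm(V, w)` and `Norm(U, w)` not empty.
The definitions are in `Pool.Agent.H913.SGP.Definitions` and `Pool.Agent.H913.LGP.Definitions`. -/

open Pool.Agent.H913.SGP Pool.Agent.H913.LGP

namespace Pool.Agent.Results.MP_c67f28_al.SubmoduleGapLarger

/-- There is a connected real reductive group `G` such that, for every `Ad(K)`-invariant inner product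
on `𝔨` (given by an orthonormal basis `b`, which defines the Laplacian `Δ_K`), there are a weight `w`
and Harish-Chandra modules `V ⊂ U`, both with a smallest and a largest class of norms in
`Norm(·, w)`, with `s(U, w) < s(V, w)`. -/
theorem result : ∃ (n : ℕ) (G : Type) (_ : Group G) (_ : TopologicalSpace G)
    (GR : Subgroup (Matrix.GeneralLinearGroup (Fin n) ℝ))
    (ρ : G →* Matrix.GeneralLinearGroup (Fin n) ℝ), IsTopologicalGroup G ∧ T2Space G ∧
    ConnectedSpace G ∧ IsRealReductive GR ρ ∧
    (∃ (m : ℕ) (b : Fin m → LieAlg GR), IsInvBasis GR ρ b) ∧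
    ∀ (m : ℕ) (b : Fin m → LieAlg GR), IsInvBasis GR ρ b →
      ∃ (w : G → ℝ) (V U : Type) (_ : AddCommGroup V) (_ : Module ℂ V) (_ : AddCommGroup U)
        (_ : Module ℂ U) (MV : HCModule GR ρ V) (MU : HCModule GR ρ U) (j : V →ₗ[ℂ] U),
        IsWeight w ∧ IsEmbedding MV MU j ∧ HasMinMax MV w ∧ HasMinMax MU w ∧
        (gapSet MV b w).Nonempty ∧ (gapSet MU b w).Nonempty ∧
        sobolevGap MU b w < sobolevGap MV b w :=
  Pool.Agent.H913.LG.final_c67

end Pool.Agent.Results.MP_c67f28_al.SubmoduleGapLarger
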